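import Pool.Agent.helper96.S5.SpecL

/-!
# s5:CLX: the matrix is closed
-/

set_option autoImplicit false

namespace S5

open PF

theorem CLX_eq (W : ℕ) (a b : Tm) (ha : ∀ i, a.Occ i → i < W) (hb : ∀ i, b.Occ i → i < W) :
    clo W (.eq a b) := fun i h => h.elim (ha i) (hb i)

theorem CLX_le (W : ℕ) (a b : Tm) (ha : ∀ i, a.Occ i → i < W) (hb : ∀ i, b.Occ i → i < W) :
    clo W (leF a b) := fun i h => h.elim (fun h => h.elim (ha i) (hb i)) (hb i)

theorem CLX_var (W j : ℕ) (h : j < W) : ∀ i, (Tm.var j).Occ i → i < W := by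
  intro i hi
  have hi' : i = j := hi
  omega

theorem CLX_vb (N W j : ℕ) (h : N ≤ W) : ∀ i, (vb N j).Occ i → i < W := by
  intro i hi
  unfold vb at hi
  split_ifs at hi with hj
  · exact CLX_var W j (by omega) i hi
  · exact absurd hi (fun h => h)

theorem CLX_tsb (N W : ℕ) (h : N ≤ W) (t : Tm) : ∀ i, (tsb N t).Occ i → i < W := by
  induction t with
  | var j => exact CLX_vb N W j h
  | bot => exact fun i hi => absurd hi (fun h => h)
  | top => exact fun i hi => absurd hi (fun h => h)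
  | sup a b iha ihb => exact fun i hi => hi.elim (iha i) (ihb i)
  | inf a b iha ihb => exact fun i hi => hi.elim (iha i) (ihb i)

theorem CLX_fsb (N W : ℕ) (h : N ≤ W) (φ : Fm) : clo W (fsb N φ) := by
  induction φ with
  | eq a b => exact CLX_eq W _ _ (CLX_tsb N W h a) (CLX_tsb N W h b)
  | neg a ih => exact ih
  | and a b iha ihb => exact ⟨iha, ihb⟩
  | or a b iha ihb => exact ⟨iha, ihb⟩

theorem CLX_tr (W : ℕ) : clo W trF := fun _ h => h.elim (fun h => absurd h (fun h => h))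
  (fun h => absurd h (fun h => h))

theorem CLX_an (W : ℕ) (l : List Fm) (h : ∀ φ ∈ l, clo W φ) : clo W (anL l) := by
  induction l with
  | nil => exact CLX_tr W
  | cons a l ih =>
    exact ⟨h a List.mem_cons_self, ih fun φ hφ => h φ (List.mem_cons_of_mem a hφ)⟩

theorem CLX_or (W : ℕ) (l : List Fm) (h : ∀ φ ∈ l, clo W φ) : clo W (orL l) := by
  induction l with
  | nil => exact CLX_tr W
  | cons a l ih =>
    exact ⟨h a List.mem_cons_self, ih fun φ hφ => h φ (List.mem_cons_of_mem a hφ)⟩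

theorem CLX_dF (N : ℕ) (gr : List At) (M : ℕ) (hg : ∀ a ∈ gr, a.2.1 ≤ M ∧ a.2.2 ≤ M)
    (r i1 i2 i3 i4 : ℕ) : clo (N + (2 * M + 2)) (dF N gr M r i1 i2 i3 i4) := by
  cases r with
  | zero =>
    apply CLX_an
    intro φ hφ
    rw [List.mem_map] at hφ
    obtain ⟨a, ha, rfl⟩ := hφ
    rw [List.mem_range] at ha
    have h0 := CLX_var (N + (2 * M + 2)) (N + 2 * a) (by omega)
    have h1 := CLX_var (N + (2 * M + 2)) (N + (2 * a + 1)) (by omega)
    exact ⟨CLX_le _ _ _ (fun i hi => hi.elim (h0 i) (h1 i)) (CLX_vb N _ i1 (by omega)),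
      CLX_le _ _ _ (CLX_vb N _ i2 (by omega)) (fun i hi => hi.elim (h0 i) (h1 i))⟩
  | succ r =>
    apply CLX_or
    intro φ hφ
    rw [List.mem_map] at hφ
    obtain ⟨a, ha, rfl⟩ := hφ
    obtain ⟨h1, h2⟩ := hg a ha
    split_ifs with hr
    · exact ⟨⟨CLX_eq _ _ _ (CLX_vb N _ i1 (by omega)) (CLX_var _ _ (by omega)),
        CLX_eq _ _ _ (CLX_vb N _ i2 (by omega)) (CLX_var _ _ (by omega))⟩,
        ⟨CLX_eq _ _ _ (CLX_vb N _ i3 (by omega)) (CLX_var _ _ (by omega)),
        CLX_eq _ _ _ (CLX_vb N _ i4 (by omega)) (CLX_var _ _ (by omega))⟩⟩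
    · exact CLX_tr _

theorem CLX_row : CLX_stmt := by
  intro N gr M μ hg
  induction μ with
  | fm φ => exact CLX_fsb N _ (by omega) φ
  | rl r i1 i2 i3 i4 => exact CLX_dF N gr M hg r i1 i2 i3 i4
  | neg a ih => exact ih
  | and a b iha ihb => exact ⟨iha, ihb⟩
  | or a b iha ihb => exact ⟨iha, ihb⟩

end S5
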