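import Pool.Agent.helper96.S5.SpecR

/-!
# s5:RSX: right strings exist
-/

set_option autoImplicit false

namespace S5

open PF

noncomputable section

open Classical

/-- the number with the ternary digits `g` -/
def RSX_cd : List ℕ → ℕ
  | [] => 0
  | x :: g => x * 3 ^ g.length + RSX_cd g

theorem RSX_cd_lt (g : List ℕ) (h : ∀ x ∈ g, x ≤ 2) : RSX_cd g < 3 ^ g.length := by
  induction g with
  | nil => exact Nat.one_pos
  | cons x g ih =>
    have h1 := ih fun y hy => h y (List.mem_cons_of_mem x hy)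
    have h2 : x ≤ 2 := h x List.mem_cons_self
    have h3 : x * 3 ^ g.length ≤ 2 * 3 ^ g.length := Nat.mul_le_mul_right _ h2
    show x * 3 ^ g.length + RSX_cd g < 3 ^ (g.length + 1)
    rw [pow_succ]
    omega

theorem RSX_lex (g : List ℕ) : ∀ (g' : List ℕ) (i : ℕ), g.length = g'.length → (∀ x ∈ g, x ≤ 2) →
    i < g.length → ent g i < ent g' i → (∀ i' < i, ent g' i' = ent g i') → RSX_cd g < RSX_cd g' := by
  induction g with
  | nil =>
    intro g' i _ _ hi
    exact absurd hi (Nat.not_lt_zero i)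
  | cons x g ih =>
    intro g' i hl hx hi h1 h2
    cases g' with
    | nil => exact absurd hl (Nat.succ_ne_zero _)
    | cons x' g' =>
      have hl' : g.length = g'.length := Nat.succ.inj hl
      have hx' : ∀ y ∈ g, y ≤ 2 := fun y hy => hx y (List.mem_cons_of_mem x hy)
      show x * 3 ^ g.length + RSX_cd g < x' * 3 ^ g'.length + RSX_cd g'
      rw [← hl']
      cases i with
      | zero =>
        have h3 : x < x' := h1
        have h4 := RSX_cd_lt g hx'
        have h5 : (x + 1) * 3 ^ g.length ≤ x' * 3 ^ g.length := Nat.mul_le_mul_right _ h3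
        rw [add_mul, one_mul] at h5
        omega
      | succ i =>
        have h3 : x' = x := h2 0 (Nat.succ_pos i)
        have h4 := ih g' i hl' hx' (Nat.lt_of_succ_lt_succ hi) h1
          fun i' hi' => h2 (i' + 1) (Nat.succ_lt_succ hi')
        rw [h3]
        omega

/-- pigeonhole -/
theorem RSX_pig {X : Type} (G : Finset X) (R : ℕ → X → Prop)
    (h : ∀ u0, ∃ u, u0 ≤ u ∧ ∃ g ∈ G, R u g) : ∃ g ∈ G, ∀ u0, ∃ u, u0 ≤ u ∧ R u g := by
  by_contra hc
  push Not at hc
  choose! F hF using hc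
  obtain ⟨u, hu, g, hg, hR⟩ := h (G.sup F)
  exact hF g hg u ((Finset.le_sup hg).trans hu) hR

/-- the first `n` values at step `u` -/
def RSX_gu (B : BD) (k n u : ℕ) : List ℕ := (List.range n).map fun i => B.vl k u i

theorem RSX_gu_len (B : BD) (k n u : ℕ) : (RSX_gu B k n u).length = n := by
  unfold RSX_gu
  rw [List.length_map, List.length_range]

theorem RSX_ent_map (f : ℕ → ℕ) (n i : ℕ) (hi : i < n) : ent ((List.range n).map f) i = f i := by
  unfold ent
  rw [List.getD_eq_getElem?_getD, List.getElem?_map, List.getElem?_range hi]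
  rfl

theorem RSX_vl_le (B : BD) (k : ℕ) (hB : B.Gd k) (u i : ℕ) : B.vl k u i ≤ 2 := by
  unfold BD.vl
  split_ifs
  · exact hB.dc2 _ _ _
  · exact Nat.zero_le 2

theorem RSX_gu_le (B : BD) (k : ℕ) (hB : B.Gd k) (n u : ℕ) : ∀ x ∈ RSX_gu B k n u, x ≤ 2 := by
  intro x hx
  unfold RSX_gu at hx
  rw [List.mem_map] at hx
  obtain ⟨i, -, rfl⟩ := hx
  exact RSX_vl_le B k hB u i

/-- all lists of length `n` with entries at most `2` -/
def RSX_G (n : ℕ) : Finset (List ℕ) :=
  (Fintype.piFinset (fun _ : Fin n => Finset.range 3)).image List.ofFn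

theorem RSX_mem_G (n : ℕ) (g : List ℕ) : g ∈ RSX_G n ↔ g.length = n ∧ ∀ x ∈ g, x ≤ 2 := by
  unfold RSX_G
  rw [Finset.mem_image]
  constructor
  · rintro ⟨f, hf, rfl⟩
    refine ⟨List.length_ofFn, ?_⟩
    intro x hx
    rw [List.mem_ofFn] at hx
    obtain ⟨i, rfl⟩ := hx
    have := (Finset.mem_range.1 (Fintype.mem_piFinset.1 hf i))
    omega
  · rintro ⟨rfl, h⟩
    refine ⟨fun i => g[i], ?_, ?_⟩
    · rw [Fintype.mem_piFinset]
      intro i
      rw [Finset.mem_range]
      have := h (g[i]) (List.getElem_mem i.isLt)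
      omega
    · exact List.ofFn_getElem

theorem RSX_row (hTKF : TKF_stmt) (hPRX : PRX_stmt) : RSX_stmt := by
  intro B k hB l hl n
  -- the property of the candidates
  obtain ⟨R, hR⟩ : ∃ R : ℕ → List ℕ → Prop, R = fun u g => B.fit k u g l ∧
      ∀ i < n, (ent g i ≠ 0 ↔ B.C i k) := ⟨_, rfl⟩
  -- existence
  have hex : ∃ g ∈ RSX_G n, ∀ u0, ∃ u, u0 ≤ u ∧ R u g := by
    apply RSX_pig
    intro u0
    obtain ⟨t, ht0, ht⟩ := hTKF B k hB ((List.range n).map fun i => if B.C i k then 1 else 0) l hl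
      (by
        intro i hi hne
        rw [List.length_map, List.length_range] at hi
        rw [RSX_ent_map _ n i hi] at hne
        by_contra hc
        rw [if_neg hc] at hne
        exact hne rfl) u0
    have hT : ∀ i < (B.th k t).1.length, ent (B.th k t).1 i ≠ 0 → B.C i k := by
      rw [ht]
      intro i hi hne
      simp only [List.length_map, List.length_range] at hi
      rw [RSX_ent_map _ n i hi] at hne
      by_contra hc
      rw [if_neg hc] at hne
      exact hne rfl
    obtain ⟨s, hs⟩ := hPRX B k hB t hT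
    refine ⟨Nat.pair s t, ht0.trans (Nat.right_le_pair s t), RSX_gu B k n (Nat.pair s t), ?_, ?_⟩
    · rw [RSX_mem_G]
      exact ⟨RSX_gu_len _ _ _ _, RSX_gu_le B k hB n _⟩
    · rw [hR]
      have hrd := hs.1
      rw [Nat.unpair_pair] at hrd
      have hlen : (B.th k t).1.length = n := by
        rw [ht]
        simp only [List.length_map, List.length_range]
      refine ⟨⟨⟨hs, ?_, ?_⟩, ?_⟩, ?_⟩
      · rw [Nat.unpair_pair]
        show (B.th k t).2 = l
        rw [ht]
      · rw [Nat.unpair_pair, RSX_gu_len]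
        exact hlen.symm.le
      · intro i hi
        rw [RSX_gu_len] at hi
        exact (RSX_ent_map _ n i hi).symm
      · intro i hi
        unfold RSX_gu
        rw [RSX_ent_map _ n i hi]
        have he : ent (B.th k t).1 i = if B.C i k then 1 else 0 := by
          rw [ht]
          exact RSX_ent_map _ n i hi
        unfold BD.vl
        rw [Nat.unpair_pair]
        show (if ent (B.th k t).1 i ≠ 0 then B.dc i k t s else 0) ≠ 0 ↔ B.C i k
        by_cases hc : B.C i k
        · rw [if_pos hc] at he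
          have hne : ent (B.th k t).1 i ≠ 0 := by rw [he]; exact one_ne_zero
          rw [if_pos hne]
          exact ⟨fun _ => hc, fun _ => hrd.2 i (by rw [hlen]; exact hi) hne⟩
        · rw [if_neg hc] at he
          have hne : ¬ ent (B.th k t).1 i ≠ 0 := by rw [he]; exact fun h => h rfl
          rw [if_neg hne]
          exact ⟨fun h => absurd rfl h, fun h => absurd h hc⟩
  -- the greatest one
  obtain ⟨g1, hg1, hinf1⟩ := hex
  obtain ⟨g, hg, hmax⟩ := Finset.exists_max_image
    ((RSX_G n).filter fun g => ∀ u0, ∃ u, u0 ≤ u ∧ R u g) RSX_cd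
    ⟨g1, Finset.mem_filter.2 ⟨hg1, hinf1⟩⟩
  rw [Finset.mem_filter, RSX_mem_G] at hg
  obtain ⟨⟨hgl, hg2⟩, hinf⟩ := hg
  have hzp : ∀ i < n, (ent g i ≠ 0 ↔ B.C i k) := by
    obtain ⟨u, -, hu⟩ := hinf 0
    rw [hR] at hu
    exact hu.2
  refine ⟨g, hgl, ?_, ?_, ?_⟩
  · rw [hgl]
    exact hzp
  · intro u0
    obtain ⟨u, h1, h2⟩ := hinf u0
    rw [hR] at h2
    exact ⟨u, h1, h2.1⟩
  · by_contra hc
    push Not at hc
    have hbig : ∃ g' ∈ RSX_G n, ∀ u0, ∃ u, u0 ≤ u ∧ (R u g' ∧ RSX_cd g < RSX_cd g') := by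
      apply RSX_pig (RSX_G n) (fun u g' => R u g' ∧ RSX_cd g < RSX_cd g')
      intro u0
      obtain ⟨u, hu0, ⟨hp, hlab, hlen⟩, hzero, i, hi, hlt, heq⟩ := hc u0
      refine ⟨u, hu0, RSX_gu B k n u, ?_, ?_, ?_⟩
      · rw [RSX_mem_G]
        exact ⟨RSX_gu_len _ _ _ _, RSX_gu_le B k hB n _⟩
      · rw [hR]
        refine ⟨⟨⟨hp, hlab, ?_⟩, ?_⟩, ?_⟩
        · rw [RSX_gu_len, ← hgl]
          exact hlen
        · intro i hi
          rw [RSX_gu_len] at hi
          exact (RSX_ent_map _ n i hi).symm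
        · intro i hi
          unfold RSX_gu
          rw [RSX_ent_map _ n i hi, ← hzp i hi]
          exact not_congr (hzero i (by rw [hgl]; exact hi))
      · rw [hgl] at hi
        refine RSX_lex g _ i (by rw [hgl, RSX_gu_len]) hg2 (by rw [hgl]; exact hi) ?_ ?_
        · unfold RSX_gu
          rw [RSX_ent_map _ n i hi]
          exact hlt
        · intro i' hi'
          unfold RSX_gu
          rw [RSX_ent_map _ n i' (hi'.trans hi)]
          exact heq i' hi'
    obtain ⟨g', hg', hinf'⟩ := hbig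
    have h1 := hmax g' (Finset.mem_filter.2 ⟨hg', fun u0 => by
      obtain ⟨u, h1, h2⟩ := hinf' u0
      exact ⟨u, h1, h2.1⟩⟩)
    obtain ⟨u, -, -, h2⟩ := hinf' 0
    omega

end

end S5
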