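import Pool.Agent.helper96.S5.SpecR

/-!
# s5:TYL: types
-/

set_option autoImplicit false

namespace S5

open PF

noncomputable section

open Classical

theorem TYL_lst (f : ℕ → ℕ) (hf : StrictMono f) (s : ℕ) : lst (fun s' => f s' = f s) = s := by
  unfold lst
  have h : {n | f n = f s} = {s} := by
    ext n
    exact ⟨fun h => hf.injective h, fun h => congrArg f h⟩
  rw [h]
  exact csInf_singleton s

theorem TYL_row (hLQS : LQS_stmt) (hTTN : TTN_stmt) : TYL_stmt := by
  intro X hX
  obtain ⟨hinf, hN, -⟩ := hTTN X hX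
  have hq := hLQS X.TT hinf
  have hmono : StrictMono X.ls := strictMono_nat_of_lt_succ (fun s => (hq s).2.1)
  refine ⟨hmono, fun s => (hN _).1 (hq s).1, ?_, ?_⟩
  · intro k a h
    unfold Cx.ty typ at h
    split_ifs at h with hs
    obtain ⟨s, -, hs⟩ := hs
    exact ⟨List.mem_of_getElem? h, s, hs⟩
  · intro a ha s0
    obtain ⟨i, hi, hia⟩ := List.getElem_of_mem ha
    refine ⟨i + s0 * X.T.length, ?_, ?_⟩
    · have h1 : 1 ≤ X.T.length := by omega
      have h2 : s0 * 1 ≤ s0 * X.T.length := Nat.mul_le_mul_left _ h1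
      omega
    · unfold Cx.ty typ
      rw [if_pos ⟨i + s0 * X.T.length, hmono.le_apply, rfl⟩]
      have h3 : (lst fun s => lq X.TT s = X.ls (i + s0 * X.T.length)) = i + s0 * X.T.length :=
        TYL_lst X.ls hmono _
      rw [h3, Nat.add_mul_mod_self_right, Nat.mod_eq_of_lt hi, List.getElem?_eq_getElem hi, hia]

end

end S5
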